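import Pool.Agent.R355.ConeAct
import Pool.Agent.Run7.h330.CBun

set_option autoImplicit false

/-!
# Conic bundles on very general blow-ups of the plane: nef rays and the canonical degree of curves

Let `X` be the blow-up of the complex projective plane at `n ≥ 10` very general points and let `F` be
a class in the orbit of `H - E 1` under the group generated by the reflections in the classes
`H - E i - E j - E l`, the class of the fibres of a conic bundle `X → P^1`.

* The class `-4 K + (n - 9) F`, of self-intersection zero, is nef. So all classes of nonnegative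
  self-intersection `a F - b K` with `a, b ≥ 0` are nef.
* Every irreducible curve `C` satisfies `4 K C ≤ (n - 9) F C`.

For `F = H - E 1` the class is `(n + 3) H - (n - 5) E 1 - 4 (E 2 + … + E n)`; for `n = 10` it is
`13 H - 5 E 1 - 4 (E 2 + … + E 10)`.
-/

namespace Pool.Agent.Results.MP_309968_ag.ConicBundleRays

open Pool.Agent.R355.ConeAct Pool.Agent.TH167

/-- The class `H - E c` of the lines through the point `P c`. -/
def pencil {n : ℕ} (c : Fin n) : ℝ × (Fin n → ℝ) := ((1 : ℝ), (Pi.single c (1 : ℝ) : Fin n → ℝ))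

/-- The class `-K = 3 H - ∑ E i`. -/
def antiK {n : ℕ} : ℝ × (Fin n → ℝ) := ((3 : ℝ), fun _ => (1 : ℝ))

/-- The class `a F - b K`. -/
def comb {n : ℕ} (a b : ℝ) (F : ℝ × (Fin n → ℝ)) : ℝ × (Fin n → ℝ) := a • F + b • antiK

/-- The class `(n - 9) F - 4 K`. -/
def conic {n : ℕ} (F : ℝ × (Fin n → ℝ)) : ℝ × (Fin n → ℝ) := comb ((n : ℝ) - 9) 4 F

section
variable {n : ℕ}

theorem dot_comb (a b : ℝ) (F x : ℝ × (Fin n → ℝ)) :
    dot (comb a b F) x = a * dot F x - b * kap x := by
  have h1 : ∑ l, (comb a b F).2 l * x.2 l = a * ∑ l, F.2 l * x.2 l + b * ∑ l, x.2 l := by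
    rw [Finset.mul_sum, Finset.mul_sum, ← Finset.sum_add_distrib]
    refine Finset.sum_congr rfl fun l _ => ?_
    show (a * F.2 l + b * 1) * x.2 l = _
    ring
  unfold dot kap
  rw [h1]
  show (a * F.1 + b * 3) * x.1 - _ = _
  ring

theorem kap_comb (a b : ℝ) (F : ℝ × (Fin n → ℝ)) :
    kap (comb a b F) = a * kap F + b * ((n : ℝ) - 9) := by
  have h1 : ∑ l, (comb a b F).2 l = a * ∑ l, F.2 l + b * n := by
    have h2 : ∀ l, (comb a b F).2 l = a * F.2 l + b := fun l => by
      show a * F.2 l + b * 1 = _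
      ring
    rw [Finset.sum_congr rfl fun l _ => h2 l, Finset.sum_add_distrib, ← Finset.mul_sum,
      Finset.sum_const, Finset.card_univ, Fintype.card_fin, nsmul_eq_mul]
    ring
  unfold kap
  rw [h1]
  show -3 * (a * F.1 + b * 3) + _ = _
  ring

theorem dot_comm' (a b : ℝ × (Fin n → ℝ)) : dot a b = dot b a := by
  unfold dot
  rw [mul_comm, Finset.sum_congr rfl fun l _ => mul_comm (a.2 l) (b.2 l)]

theorem pencil_self (c : Fin n) : dot (pencil c) (pencil c) = 0 := by
  unfold dot pencil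
  simp only
  rw [Finset.sum_eq_single c (fun l _ hl => by rw [Pi.single_eq_of_ne hl, mul_zero])
    (fun h => absurd (Finset.mem_univ c) h), Pi.single_eq_same]
  ring

theorem pencil_kap (c : Fin n) : kap (pencil c) = -2 := by
  unfold kap pencil
  simp only
  rw [Finset.sum_eq_single c (fun l _ hl => by rw [Pi.single_eq_of_ne hl])
    (fun h => absurd (Finset.mem_univ c) h), Pi.single_eq_same]
  norm_num

theorem pencil_dot (c : Fin n) (x : ℝ × (Fin n → ℝ)) : dot (pencil c) x = x.1 - x.2 c := by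
  unfold dot pencil
  simp only
  rw [Finset.sum_eq_single c (fun l _ hl => by rw [Pi.single_eq_of_ne hl, zero_mul])
    (fun h => absurd (Finset.mem_univ c) h), Pi.single_eq_same]
  ring

/-- The anticanonical class is invariant. -/
theorem refl_comb (a b : ℝ) (i : Fin 3 → Fin n) (F : ℝ × (Fin n → ℝ)) :
    refl i (comb a b F) = comb a b (refl i F) := by
  have h1 : refl i (antiK : ℝ × (Fin n → ℝ)) = antiK := by
    have h2 : del i (antiK : ℝ × (Fin n → ℝ)) = 0 := by
      unfold del antiK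
      norm_num
    refine Prod.ext ?_ ?_
    · rw [refl_fst, h2, add_zero]
    · funext l
      rw [refl_snd, h2, zero_mul, add_zero]
  unfold comb
  rw [refl_add, refl_smul, refl_smul, h1]

theorem carries_comb (a b : ℝ) {F F' : ℝ × (Fin n → ℝ)} (h : Carries F F') :
    Carries (comb a b F) (comb a b F') := by
  unfold Carries at *
  induction h with
  | refl => exact Relation.ReflTransGen.refl
  | tail _ h2 ih =>
    obtain ⟨i, hi, rfl⟩ := h2
    exact ih.tail ⟨i, hi, (refl_comb a b i _).symm⟩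

theorem carries_conv (a b : ℝ) {F D : ℝ × (Fin n → ℝ)} (h : Carries (comb a b F) D) :
    ∃ F', Carries F F' ∧ D = comb a b F' := by
  unfold Carries at *
  induction h with
  | refl => exact ⟨F, Relation.ReflTransGen.refl, rfl⟩
  | tail _ h2 ih =>
    obtain ⟨i, hi, rfl⟩ := h2
    obtain ⟨F', h3, rfl⟩ := ih
    exact ⟨refl i F', h3.tail ⟨i, hi, rfl⟩, refl_comb a b i F'⟩

end

/-- The class `(n - 9) (H - E c) - 4 K` is nef. -/
theorem conic_nef {n : ℕ} (hn : 10 ≤ n) {P : Fin n → Fin 2 → ℂ}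
    (hP : AlgebraicIndependent ℚ (fun ij : Fin n × Fin 2 => P ij.1 ij.2)) (c : Fin n) :
    ∀ x ∈ curvCone P, 0 ≤ dot (conic (pencil c)) x := by
  obtain ⟨r, rfl⟩ : ∃ r, n = r + 4 := ⟨n - 4, by omega⟩
  refine nef_of_gen ?_
  rintro x (⟨G, d, w, hG, rfl⟩ | ⟨j, rfl⟩)
  · obtain ⟨h1, h2, h3⟩ := SH.curve_iff.1 hG
    have h4 := Pool.Agent.Run7.h330.CBun.slice hP (by omega) h1 h2 h3 c (by omega)
    have h5 : (0 : ℝ) ≤ 4 * (3 * (d : ℝ) - ∑ j, (w j : ℝ)) + ((r : ℝ) - 5) * ((d : ℝ) - w c) := by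
      have h6 : (0 : ℝ) ≤ ((4 * SH.kk d w + ((r : ℤ) - 5) * ((d : ℤ) - w c) : ℤ) : ℝ) := by
        exact_mod_cast h4
      have h7 : ((SH.kk d w : ℤ) : ℝ) = 3 * (d : ℝ) - ∑ j, (w j : ℝ) := by
        unfold SH.kk
        push_cast
        ring
      push_cast at h6
      rw [h7] at h6
      linarith
    unfold conic
    rw [dot_comb, pencil_dot]
    unfold kap
    simp only
    push_cast
    linarith
  · unfold conic
    rw [dot_comb, pencil_dot]
    unfold kap
    simp only
    have h1 : ∑ l, (Pi.single j (-1 : ℝ) : Fin (r + 4) → ℝ) l = -1 := by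
      rw [Finset.sum_eq_single j (fun l _ hl => by rw [Pi.single_eq_of_ne hl])
        (fun h => absurd (Finset.mem_univ j) h), Pi.single_eq_same]
    rw [h1]
    have h2 : (Pi.single j (-1 : ℝ) : Fin (r + 4) → ℝ) c ≤ 0 := by
      by_cases h : c = j
      · subst h
        rw [Pi.single_eq_same]
        norm_num
      · rw [Pi.single_eq_of_ne h]
    have h3 : (0 : ℝ) ≤ ((r + 4 : ℕ) : ℝ) - 9 := by
      have : (10 : ℝ) ≤ ((r + 4 : ℕ) : ℝ) := by exact_mod_cast hn
      linarith
    have h4 := mul_nonneg h3 (neg_nonneg.2 h2)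
    linarith

/-- The class `H - E c` is nef. -/
theorem pencil_nef {n : ℕ} {P : Fin n → Fin 2 → ℂ} (c : Fin n) :
    ∀ x ∈ curvCone P, 0 ≤ dot (pencil c) x := by
  refine nef_of_gen ?_
  rintro x (⟨G, d, w, hG, rfl⟩ | ⟨j, rfl⟩)
  · obtain ⟨h1, h2, h3⟩ := SH.curve_iff.1 hG
    rw [pencil_dot]
    simp only
    have h4 : w c ≤ d := SH.van_le h1.ne_zero h2 (h3 c).1
    have h5 : (w c : ℝ) ≤ d := by exact_mod_cast h4
    linarith
  · rw [pencil_dot]
    simp only
    by_cases h : c = j
    · subst h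
      rw [Pi.single_eq_same]
      norm_num
    · rw [Pi.single_eq_of_ne h]
      norm_num

/-- **Conic bundles on very general blow-ups of the plane.** For `n ≥ 10` very general points and
every class `F` in the orbit of a class `H - E c` under the reflections in the classes
`H - E i - E j - E l`: (1) `F ^ 2 = 0`, `K F = -2`, and `D = (n - 9) F - 4 K` satisfies `D ^ 2 = 0`,
`K D = 2 (n - 9)`; (2) `D` is nef; (3) all classes `a F - b K`, `a, b ≥ 0`, of nonnegative
self-intersection are nef; (4) `4 K C ≤ (n - 9) F C` for all irreducible curves `C`. (5) These classes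
`D` have arbitrarily large degrees. -/
theorem result (n : ℕ) (hn : 10 ≤ n) :
    ∃ f : ℕ → MvPolynomial (Fin n × Fin 2) ℂ, (∀ k, f k ≠ 0) ∧
      ∀ P : Fin n → Fin 2 → ℂ,
        (∀ k, MvPolynomial.eval (fun q : Fin n × Fin 2 => P q.1 q.2) (f k) ≠ 0) →
        ∀ c : Fin n,
          (∀ F, Carries (pencil c) F →
            -- (1)
            (dot F F = 0 ∧ kap F = -2 ∧ dot (conic F) (conic F) = 0 ∧
              kap (conic F) = 2 * ((n : ℝ) - 9)) ∧
            -- (2)
            (∀ x ∈ curvCone P, 0 ≤ dot (conic F) x) ∧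
            -- (3)
            (∀ a b : ℝ, 0 ≤ a → 0 ≤ b → 0 ≤ dot (comb a b F) (comb a b F) →
              ∀ x ∈ curvCone P, 0 ≤ dot (comb a b F) x) ∧
            -- (4)
            (∀ (G : MvPolynomial (Fin 3) ℂ) (d : ℕ) (w : Fin n → ℕ), SHDefs.Curve P G d w →
              4 * kap ((d : ℝ), fun i => (w i : ℝ)) ≤
                ((n : ℝ) - 9) * dot F ((d : ℝ), fun i => (w i : ℝ)))) ∧
          -- (5)
          ∀ M : ℝ, ∃ F, Carries (pencil c) F ∧ M ≤ (conic F).1 := by
  obtain ⟨f, hf, h⟩ := SH.exists_fam (Fin n × Fin 2)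
  refine ⟨f, hf, fun P hP0 c => ?_⟩
  have hP := (h _).1 hP0
  have hn9 : (1 : ℝ) ≤ (n : ℝ) - 9 := by
    have : (10 : ℝ) ≤ (n : ℝ) := by exact_mod_cast hn
    linarith
  have hself : ∀ (a b : ℝ) (F : ℝ × (Fin n → ℝ)), dot F F = 0 → kap F = -2 →
      dot (comb a b F) (comb a b F) = b * (4 * a - ((n : ℝ) - 9) * b) := by
    intro a b F h1 h2
    rw [dot_comb, dot_comm', dot_comb, kap_comb, h1, h2]
    ring
  refine ⟨fun F hF => ?_, fun M => ?_⟩
  · obtain ⟨hF1, hF2, hF3⟩ := nef_carries hP hF (pencil_nef c)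
    rw [pencil_self] at hF2
    rw [pencil_kap] at hF3
    obtain ⟨hD1, -, -⟩ := nef_carries hP (carries_comb ((n : ℝ) - 9) 4 hF) (conic_nef hn hP c)
    refine ⟨⟨hF2, hF3, ?_, ?_⟩, hD1, fun a b ha hb hab x hx => ?_, fun G d w hG => ?_⟩
    · unfold conic
      rw [hself _ _ F hF2 hF3]
      ring
    · unfold conic
      rw [kap_comb, hF3]
      ring
    · rw [hself _ _ F hF2 hF3] at hab
      have h1 := hF1 x hx
      have h2 := hD1 x hx
      rw [dot_comb] at h2 ⊢
      rcases hb.eq_or_lt with h0 | h0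
      · rw [← h0]
        have := mul_nonneg ha h1
        linarith
      · have h3 : 0 ≤ 4 * a - ((n : ℝ) - 9) * b := nonneg_of_mul_nonneg_right hab h0
        have h4 := mul_nonneg h3 h1
        have h5 := mul_nonneg hb h2
        nlinarith
    · have h1 := hD1 _ (subset_closure (Submodule.subset_span (Or.inl ⟨G, d, w, hG, rfl⟩)))
      rw [dot_comb] at h1
      linarith
  · have h1 : 0 < (conic (pencil c) : ℝ × (Fin n → ℝ)).1 := by
      show 0 < ((n : ℝ) - 9) * 1 + 4 * 3
      linarith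
    have h2 : 0 ≤ dot (conic (pencil c)) (conic (pencil c) : ℝ × (Fin n → ℝ)) := by
      unfold conic
      rw [hself _ _ _ (pencil_self c) (pencil_kap c)]
      have : (4 : ℝ) * (4 * ((n : ℝ) - 9) - ((n : ℝ) - 9) * 4) = 0 := by ring
      rw [this]
    obtain ⟨D, hD1, hD2⟩ := exists_large hn h1 h2 M
    obtain ⟨F, hF1, rfl⟩ := carries_conv _ _ hD1
    exact ⟨F, hF1, hD2⟩

end Pool.Agent.Results.MP_309968_ag.ConicBundleRays
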