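import Mathlib
import Pool.Agent.Run7.h866.NU.Neg
import Pool.Agent.Run7.h866.NU.Fin
import Pool.Agent.TH167.SH.Fam

set_option autoImplicit false

/-!
# The closed cone of curves: a missing curve has no near-uniform part of the size of its degree

Let `X` be the blow-up of the complex projective plane at `n ≥ 4` very general points. A function `v`
is near-uniform on a set `T` of the points if `|T| ≥ 200` and `v` takes only two values `m`, `m + 1` on
`T`, `m ≥ 1`, or `|T| ≥ 37` and `v` is close to a constant `m ≥ (|T| + 6) / 2` on `T`.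

The closed cone of curves is contained in (so it is equal to) the closed convex cone generated by the
positive cone, by the classes of the `(-1)`-curves, and by the classes of the irreducible curves `C`
of degree `d` with multiplicities `μ i`, `C ^ 2 < 0`, with the following properties:
* `2 ∑_T v ^ 2 + ∑_T v ≤ 2 d ^ 2` for all near-uniform `v ≤ μ` on all sets `T` of the points; in
  particular `N (2 k ^ 2 + k) ≤ 2 d ^ 2` whenever `N ≥ 200` of the multiplicities are at least `k`;
* finitely many quadratic transformations carry the class of `C` to the class of an irreducible curve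
  at other very general points, which is standard, with the same `C ^ 2` and `K C`, and which satisfies
  the same inequalities.
-/

namespace Pool.Agent.Results.MP_309968_ag.CurvesWithNearUniformPart

open MvPolynomial Pool.Agent.TH167 Pool.Agent.TH167.SHDefs

/-- The classes (in the coordinates degree, multiplicities) of the irreducible curves on the
blow-up of the plane at the points `p i = (p i 0 : p i 1 : 1)`: the class `(d; m)` of the proper
transform of an irreducible plane curve of degree `d` whose multiplicity at `p i` is exactly `m i`,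
and the classes `(0; -e_i)` of the exceptional curves. -/
def curveClasses {n : ℕ} (p : Fin n → Fin 2 → ℂ) : Set (ℝ × (Fin n → ℝ)) :=
  {v : ℝ × (Fin n → ℝ) | ∃ (F : MvPolynomial (Fin 3) ℂ) (d : ℕ) (m : Fin n → ℕ),
      Curve p F d m ∧ v = ((d : ℝ), fun i => (m i : ℝ))} ∪
    {v : ℝ × (Fin n → ℝ) | ∃ i : Fin n,
      v = ((0 : ℝ), (Pi.single i (-1 : ℝ) : Fin n → ℝ))}

/-- The classes of the `(-1)`-curves. -/
def minusOneClasses {n : ℕ} (p : Fin n → Fin 2 → ℂ) : Set (ℝ × (Fin n → ℝ)) :=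
  {v | v ∈ curveClasses p ∧ v.1 ^ 2 - ∑ i, v.2 i ^ 2 = -1 ∧ -3 * v.1 + ∑ i, v.2 i = -1}

/-- The positive cone. -/
def positive (n : ℕ) : Set (ℝ × (Fin n → ℝ)) := {v | 0 ≤ v.1 ∧ ∑ i, v.2 i ^ 2 ≤ v.1 ^ 2}

/-- The class is standard. -/
def Standard {n : ℕ} (d : ℕ) (w : Fin n → ℕ) : Prop :=
  ∀ i j k : Fin n, i ≠ j → i ≠ k → j ≠ k → w i + w j + w k ≤ d

/-- The cost of a multiplicity `e ≤ m + 1`. -/
def cost (m e : ℕ) : ℕ := if e < m then 4 * (m - e) - 2 else if e = m then 0 else 1

/-- `0, 5, 2, 3` for `t ≡ 0, 1, 2, 3` modulo four. -/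
def spare (t : ℕ) : ℕ := if t % 4 = 1 then 5 else t % 4

/-- Near-uniform on the set `T` of points. -/
def NearUniform {n : ℕ} (T : Finset (Fin n)) (v : Fin n → ℕ) : Prop :=
  (200 ≤ T.card ∧ ∃ m : ℕ, 1 ≤ m ∧ ∀ i ∈ T, v i = m ∨ v i = m + 1) ∨
  (37 ≤ T.card ∧ ∃ m : ℕ, T.card + 6 ≤ 2 * m ∧ (∀ i ∈ T, v i ≤ m + 1) ∧
    (((∑ i ∈ T, cost m (v i) : ℕ) : ℝ) + (spare T.card : ℝ) / 2 + 9 / 8 <
        7 * Real.sqrt T.card / 6 ∨
      ((∑ i ∈ T, cost m (v i) : ℕ) : ℝ) + spare T.card + 2 * Real.sqrt T.card / 3 + 23 / 8 ≤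
        (T.card : ℝ) / 4))

/-- The inequalities for the degree `d` and the multiplicities `μ`. -/
def Bounded {n : ℕ} (d : ℕ) (μ : Fin n → ℕ) : Prop :=
  (∀ (T : Finset (Fin n)) (v : Fin n → ℕ), NearUniform T v → (∀ i ∈ T, v i ≤ μ i) →
    2 * ∑ i ∈ T, v i ^ 2 + ∑ i ∈ T, v i ≤ 2 * d ^ 2) ∧
  ∀ k : ℕ, 1 ≤ k → 200 ≤ (Finset.univ.filter fun i => k ≤ μ i).card →
    (Finset.univ.filter fun i => k ≤ μ i).card * (2 * k ^ 2 + k) ≤ 2 * d ^ 2

/-- Classes `(d; m)` of irreducible curves `C` with `C ^ 2 < 0` for which the inequalities `Bounded`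
hold, carried by quadratic transformations to a standard class `(e; u)` of an irreducible curve at other
points (outside of the same hypersurfaces `Z k`) with the same `C ^ 2` and `K C`, for which the
inequalities hold as well. -/
def furtherClasses {n : ℕ} (Z : ℕ → MvPolynomial (Fin n × Fin 2) ℂ) (p : Fin n → Fin 2 → ℂ) :
    Set (ℝ × (Fin n → ℝ)) :=
  {v | ∃ (F : MvPolynomial (Fin 3) ℂ) (d : ℕ) (m : Fin n → ℕ),
    Curve p F d m ∧ inter d m d m < 0 ∧ Bounded d m ∧
    (∃ (q : Fin n → Fin 2 → ℂ) (e : ℕ) (u : Fin n → ℕ) (G : MvPolynomial (Fin 3) ℂ),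
      (∀ k, MvPolynomial.eval (fun ij : Fin n × Fin 2 => q ij.1 ij.2) (Z k) ≠ 0) ∧
      Curve q G e u ∧ Relation.ReflTransGen Quadratic (d, m) (e, u) ∧ Standard e u ∧
      inter e u e u = inter d m d m ∧ interK e u = interK d m ∧ Bounded e u) ∧
    v = ((d : ℝ), fun i => (m i : ℝ))}

/-- The closed convex cone generated by a set. -/
def closedCone {n : ℕ} (S : Set (ℝ × (Fin n → ℝ))) : Set (ℝ × (Fin n → ℝ)) :=
  closure ((Submodule.span {c : ℝ // 0 ≤ c} S : Set (ℝ × (Fin n → ℝ))))

theorem near_of {n : ℕ} {T : Finset (Fin n)} {v : Fin n → ℕ} (h : NearUniform T v) :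
    Pool.Agent.Run7.h866.NU.NearOn T v := by
  have ec : ∀ m e, cost m e = Pool.Agent.Run7.h866.NU.cst m e := fun _ _ => rfl
  have es : ∀ t, spare t = Pool.Agent.Run7.h866.NU.cc t := fun _ => rfl
  rcases h with ⟨h1, m, hm, h2⟩ | ⟨h1, m, hm, h2, h3⟩
  · exact Or.inl ⟨h1, m, hm, h2⟩
  · simp only [ec, es] at h3
    exact Or.inr ⟨h1, m, hm, h2, h3⟩

/-- All curves at generic points satisfy the inequalities. -/
theorem bounded_of {n : ℕ} {P : Fin n → Fin 2 → ℂ}
    (hP : AlgebraicIndependent ℚ (fun ij : Fin n × Fin 2 => P ij.1 ij.2)) {d : ℕ}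
    {μ : Fin n → ℕ} {C : MvPolynomial (Fin 3) ℂ} (hC : Curve P C d μ) : Bounded d μ := by
  have key : ∀ (T : Finset (Fin n)) (v : Fin n → ℕ), NearUniform T v → (∀ i ∈ T, v i ≤ μ i) →
      2 * ∑ i ∈ T, v i ^ 2 + ∑ i ∈ T, v i ≤ 2 * d ^ 2 := by
    intro T v hT hv
    have h1 := Pool.Agent.Run7.h866.NU.strong_near
      (w := fun j => v (Pool.Agent.Run7.h866.NU.pts T j))
      (P := fun j => P (Pool.Agent.Run7.h866.NU.pts T j))
      (Pool.Agent.Run7.h866.NU.nearV_of (near_of hT))
      (Pool.Agent.TH885.CO.alg_emb (Pool.Agent.Run7.h866.NU.pts T) hP)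
      hC.homogeneous hC.irreducible.ne_zero
      (fun j => Ideal.pow_le_pow_right (hv _ (Pool.Agent.Run7.h866.NU.pts_mem T j))
        (hC.mult _).1)
    rw [Pool.Agent.Run7.h866.NU.sum_pts T fun i => (v i : ℝ) ^ 2,
      Pool.Agent.Run7.h866.NU.sum_pts T fun i => (v i : ℝ)] at h1
    have h2 : ((2 * ∑ i ∈ T, v i ^ 2 + ∑ i ∈ T, v i : ℕ) : ℝ) ≤ ((2 * d ^ 2 : ℕ) : ℝ) := by
      push_cast
      linarith
    exact_mod_cast h2
  refine ⟨key, fun k hk hN => ?_⟩
  have h1 := key (Finset.univ.filter fun i => k ≤ μ i) (fun _ => k)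
    (Or.inl ⟨hN, k, hk, fun i _ => Or.inl rfl⟩) (fun i hi => (Finset.mem_filter.1 hi).2)
  simp only [Finset.sum_const, smul_eq_mul] at h1
  refine le_trans (le_of_eq ?_) h1
  ring

theorem result (n : ℕ) (hn : 4 ≤ n) :
    ∃ Z : ℕ → MvPolynomial (Fin n × Fin 2) ℂ, (∀ k, Z k ≠ 0) ∧
      ∀ p : Fin n → Fin 2 → ℂ,
        (∀ k, MvPolynomial.eval (fun ij : Fin n × Fin 2 => p ij.1 ij.2) (Z k) ≠ 0) →
        closedCone (curveClasses p) ⊆
          closedCone (minusOneClasses p ∪ positive n ∪ furtherClasses Z p) := by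
  obtain ⟨r, rfl⟩ : ∃ r, n = r + 4 := ⟨n - 4, by omega⟩
  obtain ⟨Z, hZ, h⟩ := SH.exists_fam (Fin (r + 4) × Fin 2)
  refine ⟨Z, hZ, fun p hp => closure_mono (Submodule.span_mono ?_)⟩
  rintro v (⟨C, d, w, hC, rfl⟩ | ⟨i, rfl⟩)
  · by_cases hneg : inter d w d w < 0
    · by_cases hne : MinusOne p C d w
      · refine Or.inl (Or.inl ⟨Or.inl ⟨C, d, w, hC, rfl⟩, ?_, ?_⟩)
        · have h1 := hne.self
          unfold inter at h1
          have h2 : (((d : ℤ) * d - ∑ i, (w i : ℤ) * w i : ℤ) : ℝ) = ((-1 : ℤ) : ℝ) := by rw [h1]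
          push_cast at h2
          simp only
          rw [Finset.sum_congr rfl fun i _ => sq (w i : ℝ), sq]
          exact h2
        · have h1 := hne.canonical
          unfold interK at h1
          have h2 : ((-3 * (d : ℤ) + ∑ i, (w i : ℤ) : ℤ) : ℝ) = ((-1 : ℤ) : ℝ) := by rw [h1]
          push_cast at h2
          exact h2
      · right
        have hP := (h (fun ij : Fin (r + 4) × Fin 2 => p ij.1 ij.2)).1 hp
        have hfew : FewLarge (1 + ∑ i, w i) d w := by
          left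
          rw [Finset.filter_false_of_mem fun i _ => ?_]
          · simp
          · have := Finset.single_le_sum (f := w) (fun _ _ => Nat.zero_le _)
              (Finset.mem_univ i)
            omega
        rcases Pool.Agent.TH167.SH.neg_conv (m := 1 + ∑ i, w i) (by omega) hP hC hneg hfew with
          h0 | ⟨P1, G1, e1, w1, a1, a2, a3, a4, a5, -⟩
        · exact absurd h0 hne
        · exact ⟨C, d, w, hC, hneg, bounded_of hP hC,
            ⟨P1, e1, w1, G1, (h _).2 a1, a2, a3.1, a3.2.1, a4, a5, bounded_of a1 a2⟩, rfl⟩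
    · refine Or.inl (Or.inr ⟨Nat.cast_nonneg d, ?_⟩)
      push Not at hneg
      unfold inter at hneg
      have h2 : (0 : ℝ) ≤ (((d : ℤ) * d - ∑ i, (w i : ℤ) * w i : ℤ) : ℝ) := by exact_mod_cast hneg
      push_cast at h2
      simp only
      rw [Finset.sum_congr rfl fun i _ => sq (w i : ℝ), sq]
      linarith
  · refine Or.inl (Or.inl ⟨Or.inr ⟨i, rfl⟩, ?_, ?_⟩)
    · simp only
      rw [Finset.sum_eq_single i]
      · rw [Pi.single_eq_same]
        norm_num
      · intro b _ hb
        rw [Pi.single_eq_of_ne hb]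
        norm_num
      · intro h1
        exact absurd (Finset.mem_univ i) h1
    · simp only
      rw [Finset.sum_eq_single i]
      · rw [Pi.single_eq_same]
        norm_num
      · intro b _ hb
        rw [Pi.single_eq_of_ne hb]
      · intro h1
        exact absurd (Finset.mem_univ i) h1

end Pool.Agent.Results.MP_309968_ag.CurvesWithNearUniformPart
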