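import Mathlib
import Pool.Agent.Run7.h823.NG.S4
import Pool.Agent.Run7.h823.NG.S5

set_option autoImplicit false

/-!
# Near-uniform classes of negative self-intersection: sparse families of residues

For `n ≥ 10` general points of the plane let `Curveless n W` mean: every plane curve of any degree `d` whose multiplicities
at the points are at least `v_i`, where the `v_i` are positive, take at most two consecutive values `m`, `m + 1` and have the
sum `W`, satisfies `∑ v_i ^ 2 ≤ d ^ 2`. So no curve of negative self-intersection on the blow-up has near-uniform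
multiplicities of sum `W`, and all effective classes of this kind are in the positive cone, as Q1 predicts. (The
inequality `∑ v_i ≤ √n d` of Nagata's conjecture only gives `∑ v_i ^ 2 ≤ d ^ 2 + n / 4`. If `n ≥ 144`, the class is nef for
all `W` by the starting result `FewCoefficients`; the new cases are `10 ≤ n < 144`.)

Let `y_i`, `i ∈ s`, be any finite family of residues modulo an integer `q`, represented by the least residues
`0 ≤ y_i < q`, whose Fourier coefficients at the nonzero frequencies are at most `1 / (K log q)` times their number (`Flat`),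
`K` a large constant and `q ≥ K`, and let `c₀` be any natural number. The family can be very sparse, for instance have only
`q ^ ε` members.

(1) For every `n ≥ 10`, `δ > 0`, and `K` large enough in terms of `n` and `δ`: for all but at most the proportion
    `bad n + δ` of the members `W = c₀ + y_i` we have `Curveless n W` (one nonempty open set of points for all degrees and all
    near-uniform vectors); `bad n < 1`, `bad n = 0` if `n` is a square, `bad 10 < 0.163`.

(2) Examples of such families (for every `K`, `ε > 0`, `k` and all large primes `m`): the first `N ≥ m ^ ε` values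
    `c_1 g_1 ^ n + ... + c_k g_k ^ n` modulo `m`, `n < N`, `c ≠ 0`, where the orders of the `g_i` and of the quotients `g_i / g_j`,
    `i ≠ j`, are at least `m ^ ε`.

(3) For every integer `b ≥ 2` and all but `C X ^ ε` of the primes `m ≤ X`: the residues `x b ^ n` modulo `m`, `n < N`, for
    every `N ≥ m ^ ε` and every `x ≠ 0`. For instance the sums `2 ^ n mod m`, `n < m ^ ε`.

From Mathlib: `ZMod.stdAddChar`: the additive character `j ↦ exp (2 π i j / q)` of the integers modulo `q`; `ZMod.val`: the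
least residue.

Proof. If the system of the curves of degree `d` with multiplicities `v` is not empty and not special, then
`d ^ 2 + 3 d ≥ ∑ v_i ^ 2 + W`; so `d ^ 2 < ∑ v_i ^ 2` implies `3 d > W`, which is impossible for `n ≥ 10`. For the
systems see helper141 (`Pool.Agent.N141.SG`): a sum is good if its multiples by certain
square roots lie in certain arcs modulo one. The exponential sums of `θ y_i`, `θ` irrational, are estimated by the Fourier
coefficients modulo `q` (`Pool.Agent.Run7.h823.NG`); those of short recurrences by the method of Bourgain, Glibichuk and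
Konyagin (`Pool.Agent.Run7.h823.BK`).
-/

namespace Pool.Agent.Results.MP_309968_ag.ResidueMultiplicities

open MvPolynomial Filter

/-- Forms of degree `d` vanishing to order at least `w i` at the points `(P i 0 : P i 1 : 1)`. -/
noncomputable def forms {n : ℕ} (P : Fin n → Fin 2 → ℂ) (d : ℕ) (w : Fin n → ℕ) :
    Submodule ℂ (MvPolynomial (Fin 3) ℂ) :=
  homogeneousSubmodule (Fin 3) ℂ d ⊓
    Submodule.restrictScalars ℂ
      (⨅ i : Fin n, (Ideal.span {X 0 - C (P i 0) * X 2, X 1 - C (P i 1) * X 2} :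
        Ideal (MvPolynomial (Fin 3) ℂ)) ^ (w i))

/-- The system of the curves of degree `d` with multiplicities `w` at the points `P` is not special:
its projective dimension is the expected one, `max (virtdim, -1)`. -/
def NotSpecial {n : ℕ} (P : Fin n → Fin 2 → ℂ) (d : ℕ) (w : Fin n → ℕ) : Prop :=
  (Module.finrank ℂ ↥(forms P d w) : ℤ) - 1 =
    max (((d + 2).choose 2 : ℤ) - 1 - ∑ i, ((w i + 1).choose 2 : ℤ)) (-1)

/-- For general points (one nonempty open set for all degrees) the systems of curves with the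
multiplicities `w` are not special, in every degree. -/
def NeverSpecial {n : ℕ} (w : Fin n → ℕ) : Prop :=
  ∃ F : MvPolynomial (Fin n × Fin 2) ℂ, F ≠ 0 ∧ ∀ P : Fin n → Fin 2 → ℂ,
    MvPolynomial.eval (fun ij : Fin n × Fin 2 => P ij.1 ij.2) F ≠ 0 → ∀ d : ℕ, NotSpecial P d w

/-- For general points `P` (one nonempty open set for all degrees and all vectors) every nonzero form of any degree `d` whose
multiplicities at the points are at least `v i`, where the `v i` are `m` or `m + 1` for some `m ≥ 1` and have the sum `W`,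
satisfies `∑ (v i) ^ 2 ≤ d ^ 2`. -/
def Curveless (n W : ℕ) : Prop :=
  ∃ F : MvPolynomial (Fin n × Fin 2) ℂ, F ≠ 0 ∧ ∀ P : Fin n → Fin 2 → ℂ,
    MvPolynomial.eval (fun ij : Fin n × Fin 2 => P ij.1 ij.2) F ≠ 0 →
    ∀ m : ℕ, 0 < m → ∀ v : Fin n → ℕ, (∀ i, v i = m ∨ v i = m + 1) → ∑ i, v i = W →
    ∀ (d : ℕ) (G : MvPolynomial (Fin 3) ℂ), G ≠ 0 → G ∈ forms P d v → ∑ i, v i ^ 2 ≤ d ^ 2

open Classical in
/-- The bound for the proportion of the bad sums for `n` points. -/
noncomputable def bad (n : ℕ) : ℝ :=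
  if IsSquare n then 0
  else (min (√(n : ℝ) - 3) (2 / 3 + 9 / (4 * √(n : ℝ))) +
    min (√(n : ℝ) - 3) (2 / 3 + 1 / (4 * √(n : ℝ)))) / 2

/-- The Fourier coefficients of the residues `y i`, `i ∈ s`, modulo `q` at the nonzero frequencies are at most `η` times the
number of the residues: `|∑ i ∈ s, e(h y_i / q)| ≤ η |s|` for all `h ≠ 0` modulo `q`. -/
def Flat {τ : Type} (q : ℕ) [NeZero q] (η : ℝ) (s : Finset τ) (y : τ → ZMod q) : Prop :=
  ∀ h : ZMod q, h ≠ 0 → ‖∑ i ∈ s, (ZMod.stdAddChar (h * y i) : ℂ)‖ ≤ η * s.card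

/-- The natural number `c₀ + y_i`, with the least residue `0 ≤ y_i < q`. -/
def mult {τ : Type} {q : ℕ} (y : τ → ZMod q) (c₀ : ℕ) (i : τ) : ℕ := c₀ + (y i).val

theorem never_of {n : ℕ} {w : Fin n → ℕ} (h : Pool.Agent.Run7.h823.NG.ExN w) : NeverSpecial w := by
  obtain ⟨F, hF, hF'⟩ := h
  refine ⟨F.map (algebraMap ℚ ℂ), Pool.Agent.H932R3.map_ne_zero_of hF, fun P hP d => ?_⟩
  rw [MvPolynomial.eval_map] at hP
  have h1 := hF' P hP d
  unfold Pool.Agent.H932R3.ExpDim at h1
  unfold NotSpecial forms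
  rw [h1]
  have e : ∑ i, ((w i + 1).choose 2 : ℤ) = ((∑ i, (w i + 1).choose 2 : ℕ) : ℤ) := by
    push_cast
    rfl
  rw [e]
  omega

theorem bad_ten : bad 10 < 0.163 := by
  have h1 : √((10 : ℕ) : ℝ) < 3.163 := by
    rw [Real.sqrt_lt' (by norm_num)]
    norm_num
  have h0 : ¬ IsSquare 10 := by
    rintro ⟨k, hk⟩
    have : k ≤ 3 := by nlinarith
    interval_cases k <;> omega
  unfold bad
  rw [if_neg h0]
  have h2 := min_le_left (√((10 : ℕ) : ℝ) - 3) (2 / 3 + 9 / (4 * √((10 : ℕ) : ℝ)))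
  have h3 := min_le_left (√((10 : ℕ) : ℝ) - 3) (2 / 3 + 1 / (4 * √((10 : ℕ) : ℝ)))
  linarith


/-- the elementary inequality -/
theorem numeric {n m d : ℕ} (hn : 10 ≤ n) (hm : 0 < m) (v : Fin n → ℕ) (hv : ∀ i, v i = m ∨ v i = m + 1)
    (h : (∑ i, ((v i + 1).choose 2 : ℤ)) ≤ ((d + 2).choose 2 : ℤ) - 1) : ∑ i, v i ^ 2 ≤ d ^ 2 := by
  classical
  obtain ⟨k, hk⟩ : ∃ k : ℕ, k = (Finset.univ.filter fun i => v i = m + 1).card := ⟨_, rfl⟩
  have hkn : k ≤ n := by
    rw [hk]
    exact (Finset.card_filter_le _ _).trans (by rw [Finset.card_univ, Fintype.card_fin])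
  have e0 : ∀ f : ℕ → ℤ, ∑ i, f (v i) = n * f m + k * (f (m + 1) - f m) := by
    intro f
    have e1 : ∀ i, f (v i) = f m + (if v i = m + 1 then f (m + 1) - f m else 0) := by
      intro i
      rcases hv i with h1 | h1
      · rw [h1, if_neg (by omega), add_zero]
      · rw [h1, if_pos rfl]
        ring
    rw [Finset.sum_congr rfl fun i _ => e1 i, Finset.sum_add_distrib, Finset.sum_const, Finset.card_univ, Fintype.card_fin,
      ← Finset.sum_filter, Finset.sum_const, ← hk]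
    simp only [nsmul_eq_mul]
  have ch : ∀ a : ℕ, 2 * ((a + 1).choose 2 : ℤ) = (a : ℤ) ^ 2 + a := by
    intro a
    have h1 := Nat.choose_two_right (a + 1)
    have h2 : 2 ∣ (a + 1) * (a + 1 - 1) := by
      rw [Nat.add_sub_cancel, mul_comm]
      exact (Nat.even_mul_succ_self a).two_dvd
    have h3 : 2 * (a + 1).choose 2 = (a + 1) * a := by
      rw [h1, Nat.mul_div_cancel' h2, Nat.add_sub_cancel]
    have h4 : (2 * (a + 1).choose 2 : ℤ) = ((a + 1 : ℕ) : ℤ) * a := by exact_mod_cast h3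
    push_cast at h4 ⊢
    rw [h4]
    ring
  have h1 := e0 (fun a => ((a + 1).choose 2 : ℤ))
  have h2 := e0 (fun a => ((a : ℤ)) ^ 2)
  have h3 : 2 * (∑ i, ((v i + 1).choose 2 : ℤ)) = ∑ i, ((v i : ℤ)) ^ 2 + (n * m + k) := by
    rw [h1, h2]
    have c1 := ch m
    have c2 := ch (m + 1)
    push_cast at c1 c2 ⊢
    linear_combination (n - k : ℤ) * c1 + (k : ℤ) * c2
  have c3 := ch (d + 1)
  by_contra hcon
  push Not at hcon
  have h5 : ((d : ℤ)) ^ 2 + 1 ≤ ∑ i, ((v i : ℤ)) ^ 2 := by exact_mod_cast hcon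
  have h6 : (n * m + k : ℤ) + 1 ≤ 3 * d := by
    push_cast at c3
    have : 2 * ((d + 2).choose 2 : ℤ) = (d + 1) ^ 2 + (d + 1) := by
      rw [show d + 2 = d + 1 + 1 from rfl]
      linarith
    nlinarith
  have hn' : (10 : ℤ) ≤ n := by exact_mod_cast hn
  have hm' : (1 : ℤ) ≤ m := by exact_mod_cast hm
  have hk0 : (0 : ℤ) ≤ k := Int.natCast_nonneg k
  have h7 : ((n * m + k : ℤ) + 1) ^ 2 ≤ 9 * (d : ℤ) ^ 2 := by
    have : (0 : ℤ) ≤ (n * m + k : ℤ) + 1 := by positivity
    nlinarith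
  have h8 : ∑ i, ((v i : ℤ)) ^ 2 = n * m ^ 2 + k * (2 * m + 1) := by
    rw [h2]
    push_cast
    ring
  rw [h8] at h5
  -- `(n m + k + 1) ^ 2 > 9 (n m ^ 2 + k (2 m + 1) - 1)`
  have h9 : (n : ℤ) * (n - 9) * m ^ 2 ≥ 10 * m ^ 2 := by
    have : (10 : ℤ) ≤ n * (n - 9) := by nlinarith
    nlinarith [sq_nonneg (m : ℤ)]
  have h10 : 2 * (n : ℤ) * m * (k + 1) ≥ 20 * (m * (k + 1)) := by
    have : (0 : ℤ) ≤ m * (k + 1) := by positivity
    nlinarith
  nlinarith [sq_nonneg (2 * (k : ℤ) - 5), mul_nonneg (sub_nonneg.2 hm') hk0]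

/-- non-special systems have no member of negative self-intersection -/
theorem curveless_of {n W : ℕ} (hn : 10 ≤ n) (h : Pool.Agent.Run7.h823.NG.GoodN n W) : Curveless n W := by
  classical
  obtain ⟨S, hS⟩ : ∃ S : Finset (Fin n → ℕ), S = Finset.univ.piAntidiag W := ⟨_, rfl⟩
  have h1 : ∀ v : Fin n → ℕ, ∃ F : MvPolynomial (Fin n × Fin 2) ℂ, F ≠ 0 ∧ ((∃ m : ℕ, 0 < m ∧ (∀ i, v i = m ∨ v i = m + 1)) →
      ∑ i, v i = W → ∀ P : Fin n → Fin 2 → ℂ, MvPolynomial.eval (fun ij : Fin n × Fin 2 => P ij.1 ij.2) F ≠ 0 →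
      ∀ d : ℕ, NotSpecial P d v) := by
    intro v
    by_cases hv : (∃ m : ℕ, 0 < m ∧ (∀ i, v i = m ∨ v i = m + 1)) ∧ ∑ i, v i = W
    · obtain ⟨⟨m, hm, hvm⟩, hsum⟩ := hv
      obtain ⟨F, hF, hF'⟩ := never_of (h m hm v hvm hsum)
      exact ⟨F, hF, fun _ _ => hF'⟩
    · exact ⟨1, one_ne_zero, fun h2 h3 => absurd ⟨h2, h3⟩ hv⟩
  choose F hF hF' using h1
  refine ⟨∏ v ∈ S, F v, Finset.prod_ne_zero_iff.2 fun v _ => hF v, ?_⟩
  intro P hP m hm v hv hsum d G hG hGm
  have hvS : v ∈ S := by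
    rw [hS, Finset.mem_piAntidiag]
    exact ⟨hsum, fun i _ => Finset.mem_univ i⟩
  rw [map_prod, Finset.prod_ne_zero_iff] at hP
  have h2 := hF' v ⟨m, hm, hv⟩ hsum P (hP v hvS) d
  unfold NotSpecial at h2
  have h3 : 0 < Module.finrank ℂ ↥(forms P d v) := by
    have : Module.Finite ℂ ↥(forms P d v) := by
      have h4 : Module.Finite ℂ ↥(homogeneousSubmodule (Fin 3) ℂ d) :=
        Module.Finite.iff_fg.2 (MvPolynomial.homogeneousSubmodule_fg _ _ d)
      exact Submodule.finiteDimensional_of_le (inf_le_left : forms P d v ≤ homogeneousSubmodule (Fin 3) ℂ d)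
    have : Nontrivial ↥(forms P d v) := ⟨⟨⟨G, hGm⟩, 0, fun h0 => hG (congrArg Subtype.val h0)⟩⟩
    exact Module.finrank_pos
  apply numeric hn hm v hv
  by_contra hcon
  push Not at hcon
  have h5 : max (((d + 2).choose 2 : ℤ) - 1 - ∑ i, ((v i + 1).choose 2 : ℤ)) (-1) = -1 := by
    apply max_eq_right
    linarith
  rw [h5] at h2
  have h6 : (0 : ℤ) < Module.finrank ℂ ↥(forms P d v) := by exact_mod_cast h3
  linarith

/-- **Main result.** (1) Most sums `W` in a sparse family are `Curveless`, for every number `n ≥ 10` of points. (2), (3)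
Examples of families. (4) The bounds for the proportions. -/
theorem result :
    (∀ n : ℕ, 10 ≤ n → ∀ δ : ℝ, 0 < δ → ∃ K : ℕ, 0 < K ∧ ∀ (q : ℕ) [NeZero q], K ≤ q →
      ∀ (τ : Type) (s : Finset τ) (y : τ → ZMod q), Flat q (1 / (K * Real.log q)) s y → ∀ c₀ : ℕ,
      ({i : τ | i ∈ s ∧ ¬ Curveless n (mult y c₀ i)}.ncard : ℝ) ≤ (bad n + δ) * s.card) ∧
    (∀ (k K : ℕ) (ε : ℝ), 0 < K → 0 < ε → ∃ m₀ : ℕ, ∀ (m : ℕ) [Fact m.Prime], m₀ ≤ m →
      ∀ (c : Fin k → ZMod m) (g : Fin k → (ZMod m)ˣ) (N : ℕ), c ≠ 0 → (∀ i, (m : ℝ) ^ ε ≤ orderOf (g i)) →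
      (∀ i j, i ≠ j → (m : ℝ) ^ ε ≤ orderOf (g i / g j)) → (m : ℝ) ^ ε ≤ N →
      Flat m (1 / (K * Real.log m)) (Finset.range N) (fun n => ∑ i, c i * (g i : ZMod m) ^ n)) ∧
    (∀ (b K : ℕ) (ε : ℝ), 2 ≤ b → 0 < K → 0 < ε → ∃ C : ℝ, ∀ X : ℕ, 1 ≤ X → ∀ Q : Finset ℕ,
      (∀ m ∈ Q, m ≤ X ∧ ∃ _ : Fact m.Prime, ¬ ∀ N : ℕ, (m : ℝ) ^ ε ≤ N → ∀ x : ZMod m, x ≠ 0 →
        Flat m (1 / (K * Real.log m)) (Finset.range N) (fun n => x * (b : ZMod m) ^ n)) →
      (Q.card : ℝ) ≤ C * (X : ℝ) ^ ε) ∧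
    (∀ n : ℕ, 10 ≤ n → bad n < 1) ∧ bad 10 < 0.163 := by
  refine ⟨?_, ?_, ?_, ?_, ?_⟩
  · intro n hn δ hδ
    obtain ⟨K, hK, h⟩ := Pool.Agent.Run7.h823.NG.near_flat hn hδ
    refine ⟨K, hK, fun q _ hq τ s y hf c₀ => le_trans ?_ (h q hq τ s y hf (c₀ : ℤ))⟩
    apply Pool.Agent.Run7.h823.WF.ncard_mono
    intro i _ h2
    rcases Nat.eq_zero_or_pos (mult y c₀ i) with h0 | h0
    · exfalso
      apply h2
      rw [h0]
      exact curveless_of hn (Pool.Agent.Run7.h823.NG.good_zero hn)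
    · refine ⟨mult y c₀ i, h0, ?_, fun h3 => h2 (curveless_of hn h3)⟩
      unfold mult
      push_cast
      rfl
  · exact fun k K ε hK hε => Pool.Agent.Run7.h823.NG.ex_rec k K hK hε
  · exact fun b K ε hb hK hε => Pool.Agent.Run7.h823.NG.ex_pow b K hb hK hε
  · exact fun n hn => Pool.Agent.Run7.h823.NG.badN_lt hn
  · exact bad_ten

end Pool.Agent.Results.MP_309968_ag.ResidueMultiplicities
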